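import Pool.Agent.H.MP_c2e62a_gt.A

open Set Filter Topology Real Module Metric Pool.Agent.H.MP_c2e62a_gt
open scoped RealInnerProductSpace

namespace Pool.Agent.Results.MP_c2e62a_gt.NoRotor

/-- The vertical cylinder `S × ℝ` over a set `S` of the plane `z = 0`. -/
def cyl (S : Set E) : Set E := {x | ∃ y ∈ S, ∃ z : ℝ, x = y + EuclideanSpace.single 2 z}

/-- A rotation: a linear isometry of determinant one. -/
def IsRot (ρ : E ≃ₗᵢ[ℝ] E) : Prop := LinearMap.det (ρ : E →ₗ[ℝ] E) = 1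

/-- A nondegenerate equilateral triangle in the plane `z = 0`. -/
def Equi (A B C : E) : Prop :=
  A 2 = 0 ∧ B 2 = 0 ∧ C 2 = 0 ∧ A ≠ B ∧ dist A B = dist B C ∧ dist B C = dist C A

/-- `K` is a rotor in the prism over the triangle `ABC`. -/
def Rotor (A B C : E) (K : Set E) : Prop :=
  ∀ ρ : E ≃ₗᵢ[ℝ] E, IsRot ρ → ∃ t : E,
    (∀ x ∈ K, ρ x + t ∈ cyl (convexHull ℝ {A, B, C})) ∧ (∃ x ∈ K, ρ x + t ∈ cyl (segment ℝ B C)) ∧
      (∃ x ∈ K, ρ x + t ∈ cyl (segment ℝ C A)) ∧ ∃ x ∈ K, ρ x + t ∈ cyl (segment ℝ A B)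

lemma onb (a b : E) (ha : ‖a‖ = 1) (hb : ‖b‖ = 1) (h : ⟪a, b⟫ = -1 / 2) :
    ∃ B : OrthonormalBasis (Fin 3) ℝ E, B 0 = a ∧ b = (-1 / 2 : ℝ) • B 0 + (√3 / 2) • B 1 := by
  have s : √3 * √3 = 3 := mul_self_sqrt (by norm_num)
  obtain ⟨c, hc⟩ : ∃ c : E, c = (√3 / 3) • (a + (2 : ℝ) • b) := ⟨_, rfl⟩
  have a1 : ⟪a, a⟫ = 1 := by rw [real_inner_self_eq_norm_sq, ha, one_pow]
  have b1 : ⟪b, b⟫ = 1 := by rw [real_inner_self_eq_norm_sq, hb, one_pow]
  have c1 : ‖c‖ = 1 := un (by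
    simp only [hc, inner_add_left, inner_add_right, real_inner_smul_left, real_inner_smul_right, a1,
      b1, h, real_inner_comm a b]
    linarith)
  have c2 : ⟪a, c⟫ = 0 := by
    simp only [hc, inner_add_right, real_inner_smul_right, a1, h]; ring
  obtain ⟨n, n1, n2, n3⟩ := perp a c
  have o : Orthonormal ℝ ![a, c, n] := by
    simp [orthonormal_vecCons_iff, ha, c1, n1, c2, n2, n3, Fin.forall_fin_succ]
  obtain ⟨B, hB⟩ := Orthonormal.exists_orthonormalBasis_extension_of_card_eq (𝕜 := ℝ) (by simp)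
    (v := ![a, c, n]) (s := univ) (o.comp _ Subtype.val_injective)
  refine ⟨B, hB 0 trivial, ?_⟩
  rw [hB 0 trivial, hB 1 trivial]
  simp only [Matrix.cons_val, hc]
  linear_combination (norm := module) (-1 / 6 : ℝ) • (congrArg (· • (a + (2 : ℝ) • b)) s)

lemma rot (a b a' b' : E) (ha : ‖a‖ = 1) (hb : ‖b‖ = 1) (h : ⟪a, b⟫ = -1 / 2)
    (ha' : ‖a'‖ = 1) (hb' : ‖b'‖ = 1) (h' : ⟪a', b'⟫ = -1 / 2) :
    ∃ ρ : E ≃ₗᵢ[ℝ] E, ρ.toLinearEquiv.det = 1 ∧ ρ a = a' ∧ ρ b = b' := by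
  obtain ⟨B, rfl, rfl⟩ := onb a b ha hb h
  obtain ⟨D, rfl, rfl⟩ := onb a' b' ha' hb' h'
  obtain ⟨ρ, hρ⟩ : ∃ ρ : E ≃ₗᵢ[ℝ] E, ∀ i, ρ (B i) = D i :=
    ⟨B.equiv D (Equiv.refl _), fun i => B.equiv_apply_basis D _ i⟩
  have d := (Matrix.det_of_mem_unitary (ρ.toMatrix_mem_unitaryGroup B B)).2
  rw [star_trivial, LinearMap.det_toMatrix, mul_self_eq_one_iff, ← LinearEquiv.coe_det] at d
  rcases d with d | d
  · exact ⟨ρ, Units.ext d, hρ 0, by simp [hρ]⟩
  have m : ∀ i, i ≠ 2 → (ℝ ∙ D 2)ᗮ.reflection (D i) = D i := fun i hi =>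
    Submodule.reflection_mem_subspace_eq_self (Submodule.mem_orthogonal_singleton_iff_inner_right.2
      (D.orthonormal.2 hi.symm))
  refine ⟨ρ.trans (ℝ ∙ D 2)ᗮ.reflection, ?_, by simp [hρ, m], by simp [hρ, m]⟩
  rw [LinearIsometryEquiv.toLinearEquiv_trans, LinearEquiv.det_trans,
    Submodule.linearEquiv_det_reflection, Submodule.orthogonal_orthogonal,
    finrank_span_singleton (D.orthonormal.ne_zero 2), show ρ.toLinearEquiv.det = -1 from Units.ext d]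
  simp

lemma face (A B C n : E) (k : ℝ) (hk : 0 < k) (hn : n = k • (B + C - (2 : ℝ) • A)) (hA : A 2 = 0)
    (hB : B 2 = 0) (hC : C 2 = 0) (h1 : ‖B - A‖ = ‖C - A‖) (K : Set E) (ρ : E ≃ₗᵢ[ℝ] E) (t u : E)
    (hu : ρ u = n) (T : Set E) (hT : T = {A, B, C}) (h2 : ∀ x ∈ K, ρ x + t ∈ cyl (convexHull ℝ T))
    (h3 : ∃ x ∈ K, ρ x + t ∈ cyl (segment ℝ B C)) (h4 : 0 ≤ ⟪B - A, C - A⟫) :
    sSup ((fun x => ⟪u, x⟫) '' K) = ⟪n, B⟫ - ⟪n, t⟫ := by
  have z : ∀ z : ℝ, ⟪n, EuclideanSpace.single 2 z⟫ = 0 := fun z => by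
    simp [hn, EuclideanSpace.inner_single_right, hA, hB, hC]
  have e : n = k • ((B - A) + (C - A)) := by rw [hn]; module
  have b : ⟪n, B⟫ - ⟪n, A⟫ = k * (‖B - A‖ ^ 2 + ⟪B - A, C - A⟫) := by
    rw [← inner_sub_right, e, real_inner_smul_left, inner_add_left, real_inner_self_eq_norm_sq,
      real_inner_comm]
  have c : ⟪n, C⟫ - ⟪n, A⟫ = k * (‖B - A‖ ^ 2 + ⟪B - A, C - A⟫) := by
    rw [← inner_sub_right, e, real_inner_smul_left, inner_add_left, real_inner_self_eq_norm_sq, h1,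
      add_comm]
  have p : 0 ≤ k * (‖B - A‖ ^ 2 + ⟪B - A, C - A⟫) := by positivity
  have i : ∀ x, ⟪u, x⟫ = ⟪n, ρ x + t⟫ - ⟪n, t⟫ := fun x => by
    rw [inner_add_right, ← hu, ρ.inner_map_map]; ring
  refine IsGreatest.csSup_eq ⟨?_, ?_⟩
  · obtain ⟨x, hx, _, ⟨r, s, -, -, hrs, rfl⟩, w, hw⟩ := h3
    refine ⟨x, hx, ?_⟩
    simp only [i, hw, inner_add_right, z, real_inner_smul_right]
    linear_combination ⟪n, B⟫ * hrs + s * c - s * b
  · rintro _ ⟨x, hx, rfl⟩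
    obtain ⟨y, hy, w, hw⟩ := h2 x hx
    have : y ∈ {y : E | ⟪n, y⟫ ≤ ⟪n, B⟫} := convexHull_min (by
      rw [hT]; rintro _ (rfl | rfl | rfl) <;> change ⟪n, _⟫ ≤ ⟪n, _⟫ <;> linarith)
      (convex_halfSpace_le (innerSL ℝ n).toLinearMap.isLinear _) hy
    simp only [i, hw, inner_add_right, z, mem_setOf_eq] at this ⊢
    linarith

theorem result (A B C : E) (hT : Equi A B C) (K : Set E) (hK : IsCompact K)
    (cK : Convex ℝ K) (nK : (interior K).Nonempty) (h : Rotor A B C K) :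
    ∃ c r, K = closedBall c r := by
  obtain ⟨hA, hB, hC, h0, h1, h2⟩ := hT
  obtain ⟨X, rfl⟩ : ∃ X, B = A + X := ⟨B - A, by simp⟩
  obtain ⟨Y, rfl⟩ : ∃ Y, C = A + Y := ⟨C - A, by simp⟩
  simp only [dist_eq_norm, sub_add_cancel_left, norm_neg, add_sub_add_left_eq_sub,
    add_sub_cancel_left] at h1 h2
  have X0 : 0 < ‖X‖ := norm_pos_iff.2 fun k => h0 (by simp [k])
  have xy : ⟪X, Y⟫ = ‖X‖ ^ 2 / 2 := by
    have := norm_sub_sq_real X Y
    rw [h2, ← h2, ← h1] at this; linarith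
  have xx : ⟪X, X⟫ = ‖X‖ ^ 2 := real_inner_self_eq_norm_sq X
  have yy : ⟪Y, Y⟫ = ‖X‖ ^ 2 := by rw [real_inner_self_eq_norm_sq, h1, h2]
  obtain ⟨k, k0, hk⟩ : ∃ k : ℝ, 0 < k ∧ k * k * (3 * ‖X‖ ^ 2) = 1 := ⟨(√3 * ‖X‖)⁻¹, by positivity, by
    have s : √3 * √3 = 3 := mul_self_sqrt (by norm_num)
    field_simp; linarith⟩
  have ip : ∀ a b c d : ℝ, ⟪a • X + b • Y, c • X + d • Y⟫ =
      (a * c + b * d + (a * d + b * c) / 2) * ‖X‖ ^ 2 := fun a b c d => by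
    simp only [inner_add_left, inner_add_right, real_inner_smul_left, real_inner_smul_right, xx, yy,
      xy, real_inner_comm X Y]; ring
  obtain ⟨l, r, hl⟩ := lin (g := fun u => sSup ((fun x => ⟪u, x⟫) '' K))
    (c := ⟪k • X + k • Y, A + X⟫ + ⟪(-2 * k) • X + k • Y, A + Y⟫ + ⟪k • X + (-2 * k) • Y, A⟫)
    (hK.continuous_sSup (f := fun u x => ⟪u, x⟫) (by unfold Function.HasUncurry.uncurry; fun_prop))
    fun a b ha hb hab => by
      obtain ⟨ρ, d, e1, e2⟩ := rot a b (k • X + k • Y) ((-2 * k) • X + k • Y) ha hb hab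
        (un (by rw [ip]; linarith)) (un (by rw [ip]; linarith)) (by rw [ip]; linarith)
      obtain ⟨t, t1, t2, t3, t4⟩ := h ρ ((LinearEquiv.coe_det _).symm.trans (congrArg Units.val d))
      have f1 := face A (A + X) (A + Y) _ k k0 (by module) hA hB hC (by simp [h1, h2]) K ρ t a e1 _ rfl
        t1 t2 (by simp only [add_sub_cancel_left, xy]; positivity)
      have f2 := face (A + X) (A + Y) A _ k k0 (by module) hB hC hA (by simp [norm_sub_rev, ← h1]) K ρ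
        t b e2 _ (by ext; simp; tauto) t1 t3 (by
          simp only [add_sub_add_left_eq_sub, sub_add_cancel_left, inner_neg_right, inner_sub_left,
            xx, real_inner_comm X Y, xy]; nlinarith)
      have f3 := face (A + Y) A (A + X) (k • X + (-2 * k) • Y) k k0 (by module) hC hA hB
        (by simp [h2]) K ρ t (-(a + b)) (by rw [map_neg, map_add, e1, e2]; module) _
        (by ext; simp; tauto) t1 t4 (by
          simp only [add_sub_add_left_eq_sub, sub_add_cancel_left, inner_neg_left, inner_sub_right,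
            yy, real_inner_comm X Y, xy]; nlinarith)
      have f4 : ⟪k • X + k • Y, t⟫ + ⟪(-2 * k) • X + k • Y, t⟫ + ⟪k • X + (-2 * k) • Y, t⟫ = 0 := by
        simp only [inner_add_left, real_inner_smul_left]; ring
      simp only [f1, f2, f3]; linarith
  have nK' : K.Nonempty := nK.mono interior_subset
  have g : ∀ u, ‖u‖ = 1 → IsGreatest ((fun x => ⟪u, x⟫) '' K) (⟪u, l⟫ + r) := fun u hu =>
    hl u hu ▸ (hK.image (by fun_prop)).isGreatest_sSup (nK'.image _)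
  obtain ⟨u0, hu0, -⟩ := perp 0 0
  have r0 : 0 ≤ r := by
    obtain ⟨x, hx⟩ := nK'
    have a := (g u0 hu0).2 ⟨x, hx, rfl⟩
    have b := (g (-u0) (by simpa)).2 ⟨x, hx, rfl⟩
    simp only [inner_neg_left] at a b
    linarith
  have s1 : K ⊆ closedBall l r := fun x hx => by
    rw [mem_closedBall, dist_eq_norm]
    by_cases k : x - l = 0
    · simpa [k]
    have := (g _ (nrm k)).2 ⟨x, hx, rfl⟩
    rw [← sub_le_iff_le_add', ← inner_sub_right, real_inner_smul_left, real_inner_self_eq_norm_sq,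
      sq, inv_mul_cancel_left₀ (norm_ne_zero_iff.2 k)] at this
    exact this
  refine ⟨l, r, s1.antisymm ?_⟩
  rw [← convexHull_sphere_eq_closedBall _ r0]
  refine convexHull_min (fun y hy => ?_) cK
  obtain ⟨u, hu, rfl⟩ : ∃ u : E, ‖u‖ = 1 ∧ y = l + r • u := by
    rw [mem_sphere, dist_eq_norm] at hy
    by_cases k : y - l = 0
    · exact ⟨u0, hu0, by rw [← hy, k]; simpa [sub_eq_zero] using k⟩
    · exact ⟨_, nrm k, by rw [← hy, smul_smul, mul_inv_cancel₀ (norm_ne_zero_iff.2 k)]; simp⟩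
  obtain ⟨x, hx, e⟩ := (g u hu).1
  have a := s1 hx
  rw [mem_closedBall, dist_eq_norm] at a
  have b := norm_sub_sq_real (x - l) (r • u)
  rw [real_inner_smul_right, real_inner_comm, inner_sub_right, norm_smul, hu,
    Real.norm_of_nonneg r0] at b
  simp only at e
  have : ‖x - l - r • u‖ ^ 2 ≤ 0 := by rw [b, e]; nlinarith [norm_nonneg (x - l)]
  rwa [show l + r • u = x by
    have := norm_eq_zero.1 (pow_eq_zero_iff two_ne_zero |>.1 (le_antisymm this (sq_nonneg _)))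
    linear_combination (norm := module) -this]

end Pool.Agent.Results.MP_c2e62a_gt.NoRotor
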